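import Pool.Agent.Y860.SB.Defs
import Pool.Agent.H560R3.SO.NC
import Pool.Agent.H560R3.SO.ND
import Pool.Agent.H560R3.SO.NE
import Pool.Agent.H560R3.SO.HTsub
import Pool.Agent.H560R3.SO.HTmap
import Pool.Agent.H560R3.SO.HTsplit
import Pool.Agent.H560R3.SO.HTinit
import Pool.Agent.H560R3.SO.HTsum
import Pool.Agent.H560R3.SO.HTcount

/-!
The necessary direction in base `k`.
-/

set_option autoImplicit false

namespace Pool.Agent.Y860.SB

open Ordinal Pool.Agent.H560R3.SO

/-- the map `x ↦ k x mod 1` continuous from the left, with values in `(0, 1]` -/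
noncomputable def T (k : ℕ) (x : ℝ) : ℝ := k * x - (⌈(k : ℝ) * x⌉ - 1)

theorem T_pos (k : ℕ) (x : ℝ) : 0 < T k x := by
  unfold T
  have := Int.ceil_lt_add_one ((k : ℝ) * x)
  linarith

theorem T_le (k : ℕ) (x : ℝ) : T k x ≤ 1 := by
  unfold T
  have := Int.le_ceil ((k : ℝ) * x)
  linarith

/-- an injective orbit of `T k` in `(0, 1)` avoiding the points `j / k` -/
structure OrbK (k : ℕ) (a : ℕ → ℝ) : Prop where
  h0 : ∀ i, 0 < a i
  h1 : ∀ i, a i < 1
  h2 : ∀ i (j : ℤ), (k : ℝ) * a i ≠ j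
  hs : ∀ i, a (i + 1) = T k (a i)
  hi : Function.Injective a

theorem fin_of (a : ℕ → ℝ) (N : ℕ) (h : ∀ m, N ≤ m → ∃ m' < m, a m' = a m) :
    (Set.range a).Finite := by
  have key : ∀ m, a m ∈ a '' {m | m < N} := by
    intro m
    induction m using Nat.strong_induction_on with
    | _ m ih =>
      by_cases hm : m < N
      · exact ⟨m, hm, rfl⟩
      · obtain ⟨m', h1, h2⟩ := h m (by omega)
        rw [← h2]
        exact ih m' h1
  refine ((Set.finite_lt_nat N).image a).subset ?_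
  rintro _ ⟨m, rfl⟩
  exact key m

theorem nA {k : ℕ} (hk : 2 ≤ k) {d : ℕ → ℕ} (hd : ∀ n, d n < k) (hinf : (shiftSetK k d).Infinite) :
    OrbK k (svk k d) := by
  have hk1 := k1 hk
  have ne0 : ∀ i, svk k d i ≠ 0 := by
    intro i hi
    have hz : ∀ n, svk k d (i + n) = 0 := by
      intro n
      induction n with
      | zero => simpa using hi
      | succ n ih =>
        have h1 := svk_succ hk hd (i + n)
        have h2 := svk_nonneg hk hd (i + n + 1)
        have h3 : (0 : ℝ) ≤ d (i + n) := by positivity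
        rw [← add_assoc]
        rw [ih] at h1
        linarith
    refine hinf (fin_of _ (i + 1) fun m hm => ⟨i, by omega, ?_⟩)
    rw [hi, show m = i + (m - i) by omega, hz]
  have ne1 : ∀ i, svk k d i ≠ 1 := by
    intro i hi
    have hz : ∀ n, svk k d (i + n) = 1 := by
      intro n
      induction n with
      | zero => simpa using hi
      | succ n ih =>
        have h1 := svk_succ hk hd (i + n)
        have h2 := svk_le hk hd (i + n + 1)
        have h3 := dig_le hk hd (i + n)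
        rw [← add_assoc]
        rw [ih] at h1
        linarith
    refine hinf (fin_of _ (i + 1) fun m hm => ⟨i, by omega, ?_⟩)
    rw [hi, show m = i + (m - i) by omega, hz]
  have pos : ∀ i, 0 < svk k d i := fun i => lt_of_le_of_ne (svk_nonneg hk hd i) (ne0 i).symm
  have lt1 : ∀ i, svk k d i < 1 := fun i => lt_of_le_of_ne (svk_le hk hd i) (ne1 i)
  have hceil : ∀ i, ⌈(k : ℝ) * svk k d i⌉ = (d i : ℤ) + 1 := by
    intro i
    have h1 := svk_succ hk hd i
    have h2 := pos (i + 1)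
    have h3 := lt1 (i + 1)
    rw [Int.ceil_eq_iff]
    push_cast
    constructor <;> linarith
  have hs : ∀ i, svk k d (i + 1) = T k (svk k d i) := by
    intro i
    have h1 := svk_succ hk hd i
    unfold T
    rw [hceil i, h1]
    push_cast
    ring
  refine ⟨pos, lt1, ?_, hs, ?_⟩
  · intro i j hj
    have h1 := svk_succ hk hd i
    have h2 := pos (i + 1)
    have h3 := lt1 (i + 1)
    rw [h1, hj] at h2 h3
    have h4 : (d i : ℤ) < j := by
      have : ((d i : ℤ) : ℝ) < (j : ℝ) := by push_cast; linarith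
      exact_mod_cast this
    have h5 : j < (d i : ℤ) + 1 := by
      have : (j : ℝ) < (((d i : ℤ) + 1 : ℤ) : ℝ) := by push_cast; linarith
      exact_mod_cast this
    omega
  · intro i j hij
    by_contra hne
    wlog hlt : i < j generalizing i j
    · exact this hij.symm (fun h => hne h.symm) (by omega)
    have hper : ∀ n, svk k d (i + n) = svk k d (j + n) := by
      intro n
      induction n with
      | zero => simpa using hij
      | succ n ih => rw [← add_assoc, ← add_assoc, hs, hs, ih]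
    refine hinf (fin_of _ j fun m hm => ⟨i + (m - j), by omega, ?_⟩)
    rw [hper, show j + (m - j) = m by omega]

theorem Tmap {k : ℕ} (hk : 2 ≤ k) (h1 : S_HTsub) (h2 : S_HTmap) (a : ℕ → ℝ) (ha : OrbK k a)
    {α : Ordinal.{0}} (hA : HasType (Set.range a) α) (β : Ordinal.{0}) (x : ℝ)
    (hx : x ∈ NC.Hv (Set.range a) β) : T k x ∈ NC.Hv (Set.range a) β := by
  have hk1 := k1 hk
  have hk0 : (0 : ℝ) < k := by linarith
  obtain ⟨hx0, hx1, hx⟩ := hx
  refine ⟨T_pos k x, T_le k x, fun t ht => ?_⟩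
  set c : ℤ := ⌈(k : ℝ) * x⌉ with hc
  have hTx : T k x = k * x - (c - 1) := rfl
  have hcx : ((c : ℝ) - 1) / k < x := by
    rw [div_lt_iff₀ hk0]
    have := Int.ceil_lt_add_one ((k : ℝ) * x)
    rw [← hc] at this
    linarith
  have hcx2 : (k : ℝ) * x ≤ c := Int.le_ceil _
  have htx : x - (T k x - t) / k < x := by
    have : 0 < (T k x - t) / k := div_pos (by linarith) hk0
    linarith
  refine (hx (max (x - (T k x - t) / k) (((c : ℝ) - 1) / k)) (max_lt htx hcx)).trans ?_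
  have key : ∀ y ∈ Set.range a, max (x - (T k x - t) / k) (((c : ℝ) - 1) / k) ≤ y → y < x →
      T k y = k * y - (c - 1) := by
    rintro y ⟨i, rfl⟩ hy hy'
    have h5 : ((c : ℝ) - 1) / k ≤ a i := (le_max_right _ _).trans hy
    rw [div_le_iff₀ hk0] at h5
    have h6 : ((c : ℝ) - 1) ≠ k * a i := by
      intro h7
      apply ha.h2 i (c - 1)
      rw [← h7]
      push_cast
      ring
    have h7 : ((c : ℝ) - 1) < k * a i := lt_of_le_of_ne (by linarith) h6
    have h8 : (k : ℝ) * a i < k * x := by gcongr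
    have h9 : ⌈(k : ℝ) * a i⌉ = c := by
      rw [Int.ceil_eq_iff]
      constructor <;> linarith
    unfold T
    rw [h9]
  refine NC.ty_map h1 h2 hA Set.inter_subset_left Set.inter_subset_left (T k) ?_ ?_
  · rintro y ⟨hyr, hy, hy'⟩ z ⟨hzr, hz, hz'⟩ hyz
    rw [key y hyr hy hy', key z hzr hz hz']
    have : (k : ℝ) * y < k * z := by gcongr
    linarith
  · rintro y ⟨hyr, hy, hy'⟩
    have h8 := key y hyr hy hy'
    have h9 : x - (T k x - t) / k ≤ y := (le_max_left _ _).trans hy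
    refine ⟨?_, ?_⟩
    · obtain ⟨i, rfl⟩ := hyr
      exact ⟨i + 1, ha.hs i⟩
    · rw [h8]
      constructor
      · have h10 : (k : ℝ) * (x - (T k x - t) / k) ≤ k * y := by gcongr
        have h11 : (k : ℝ) * (x - (T k x - t) / k) = k * x - (T k x - t) := by
          field_simp
        rw [h11, hTx] at h10
        linarith
      · rw [hTx]
        have : (k : ℝ) * y < k * x := by gcongr
        linarith

theorem existK {k : ℕ} (h1 : S_HTsub) (h3 : S_HTsplit) (h4 : S_HTinit) (a : ℕ → ℝ)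
    (ha : OrbK k a)
    (β : Ordinal.{0}) (hβ : 1 ≤ β) (n : ℕ) (hn : 1 ≤ n) (ρ : Ordinal.{0})
    (hA : HasType (Set.range a) (ω ^ β * (n : Ordinal.{0}) + ρ)) :
    (NC.Hv (Set.range a) β).Nonempty := by
  set A := Set.range a with hAd
  have hle : ω ^ β ≤ ω ^ β * (n : Ordinal.{0}) + ρ := by
    have h5 : ω ^ β * ((1 : ℕ) : Ordinal.{0}) ≤ ω ^ β * (n : Ordinal.{0}) :=
      mul_le_mul_right (by exact_mod_cast hn) _
    rw [Nat.cast_one, mul_one] at h5
    exact h5.trans le_self_add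
  have hx : ∃ x ≤ (1 : ℝ), HasType (A ∩ Set.Iio x) (ω ^ β) := by
    rcases hle.lt_or_eq with h | h
    · obtain ⟨x, ⟨i, hi⟩, hx⟩ := h4 A _ _ hA h
      refine ⟨x, ?_, hx⟩
      rw [← hi]
      exact (ha.h1 i).le
    · refine ⟨1, le_refl _, ?_⟩
      have e : A ∩ Set.Iio 1 = A := by
        apply Set.inter_eq_left.2
        rintro y ⟨i, rfl⟩
        exact ha.h1 i
      rw [e, h]
      exact hA
  obtain ⟨x, hx1, hx⟩ := hx
  set B := A ∩ Set.Iio x with hB
  have hBA : B ⊆ A := Set.inter_subset_left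
  have tyB : NC.ty B = ω ^ β := NC.ty_eq hx
  have hne : ∀ s : Set ℝ, s.Nonempty → s ⊆ A → NC.ty s ≠ 0 := by
    intro s hs hsA h0
    have h5 := NC.ty_spec h1 hA hsA
    rw [h0] at h5
    obtain ⟨w, e⟩ := h5
    rw [Ordinal.type_eq_zero_iff_isEmpty] at e
    obtain ⟨y, hy⟩ := hs
    exact e.false ⟨y, hy⟩
  have hBn : B.Nonempty := by
    by_contra h
    rw [Set.not_nonempty_iff_eq_empty] at h
    rw [h] at hx
    obtain ⟨w, e⟩ := hx
    have h0 : (type (fun x y : (∅ : Set ℝ) => x < y)) = 0 := by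
      rw [Ordinal.type_eq_zero_iff_isEmpty]
      infer_instance
    rw [h0] at e
    exact (NC.opow_pos' β).ne e
  have hBb : BddAbove B := ⟨x, fun y hy => hy.2.le⟩
  have htail : ∀ y ∈ B, NC.ty (B ∩ Set.Ici y) = ω ^ β := by
    intro y hy
    have h5 := NC.ty_split h1 h3 hA hBA y
    rw [tyB] at h5
    exact NC.tail_eq β _ _ h5
      (hne _ ⟨y, hy, Set.mem_Ici.2 le_rfl⟩ (Set.inter_subset_left.trans hBA))
  have hqB : sSup B ∉ B := by
    intro h
    have h5 := htail _ h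
    have e : B ∩ Set.Ici (sSup B) = {sSup B} := by
      ext y
      constructor
      · rintro ⟨hy, hy'⟩
        exact le_antisymm (le_csSup hBb hy) hy'
      · intro hy
        rw [Set.mem_singleton_iff] at hy
        rw [hy]
        exact ⟨h, Set.mem_Ici.2 le_rfl⟩
    rw [e] at h5
    have h6 : HasType {sSup B} (ω ^ β) := by
      rw [← h5]
      apply NC.ty_spec h1 hA
      rw [Set.singleton_subset_iff]
      exact hBA h
    obtain ⟨w, e6⟩ := h6
    have h7 : (type (fun x y : ({sSup B} : Set ℝ) => x < y)) = 1 := by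
      exact Ordinal.type_eq_one_of_unique _
    rw [h7] at e6
    have h8 : ω ^ (1 : Ordinal.{0}) ≤ ω ^ β := opow_le_opow_right omega0_pos hβ
    rw [← e6, opow_one] at h8
    exact absurd (lt_of_lt_of_le one_lt_omega0 h8) (lt_irrefl _)
  refine ⟨sSup B, ?_, ?_, ?_⟩
  · obtain ⟨y, hy⟩ := hBn
    have h5 : y ≤ sSup B := le_csSup hBb hy
    obtain ⟨i, hi⟩ := hBA hy
    have := ha.h0 i
    rw [hi] at this
    linarith
  · exact (csSup_le hBn (fun y hy => hy.2.le)).trans hx1
  · intro t ht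
    obtain ⟨y, hy, hty⟩ := exists_lt_of_lt_csSup hBn ht
    rw [← htail y hy]
    refine NC.ty_mono h1 hA ?_ Set.inter_subset_left
    rintro z ⟨hz, hz'⟩
    refine ⟨hBA hz, hty.le.trans hz', lt_of_le_of_ne (le_csSup hBb hz) ?_⟩
    intro h
    rw [h] at hz
    exact hqB hz

theorem nC {k : ℕ} (hk : 2 ≤ k) (h1 : S_HTsub) (h2 : S_HTmap) (h3 : S_HTsplit) (h4 : S_HTinit)
    (a : ℕ → ℝ) (ha : OrbK k a) (β : Ordinal.{0}) (n : ℕ) (ρ : Ordinal.{0}) (hβ : 1 ≤ β)
    (hn : 1 ≤ n) (hρ : ρ < ω ^ β)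
    (hA : HasType (Set.range a) (ω ^ β * (n : Ordinal.{0}) + ρ)) :
    ∃ (p : ℝ) (m : ℕ), 0 < p ∧ p ≤ 1 ∧ 1 ≤ m ∧ (T k)^[m] p = p ∧
      ∃ t < p, ∀ t', t ≤ t' → t' < p → HasType (Set.range a ∩ Set.Ico t' p) (ω ^ β) := by
  obtain ⟨x, hx⟩ := existK h1 h3 h4 a ha β hβ n hn ρ hA
  have hfin := NC.fin h1 h3 β n ρ hρ hA
  have hit : ∀ j : ℕ, (T k)^[j] x ∈ NC.Hv (Set.range a) β := by
    intro j
    induction j with
    | zero => exact hx
    | succ j ih =>
      rw [Function.iterate_succ_apply']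
      exact Tmap hk h1 h2 a ha hA β _ ih
  obtain ⟨i, j, hij, e⟩ := hfin.exists_lt_map_eq_of_forall_mem hit
  obtain ⟨t, ht, htt⟩ := NC.top h1 h3 h4 β n ρ hρ hA _ (hit i)
  refine ⟨(T k)^[i] x, j - i, (hit i).1, (hit i).2.1, by omega, ?_, t, ht, htt⟩
  rw [← Function.iterate_add_apply, Nat.sub_add_cancel hij.le]
  exact e.symm

/-- the iterates of `T k` to the left of a point -/
theorem iter_left {k : ℕ} (hk : 2 ≤ k) (m : ℕ) : ∀ p : ℝ, ∃ δ : ℝ, 0 < δ ∧ ∀ d, 0 ≤ d → d < δ →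
    (T k)^[m] (p - d) = (T k)^[m] p - (k : ℝ) ^ m * d := by
  have hk1 := k1 hk
  have hk0 : (0 : ℝ) < k := by linarith
  induction m with
  | zero => exact fun p => ⟨1, one_pos, fun d _ _ => by simp⟩
  | succ m ih =>
    intro p
    obtain ⟨δ, hδ, h⟩ := ih (T k p)
    have h1 : ∃ δ' : ℝ, 0 < δ' ∧ ∀ d, 0 ≤ d → d < δ' → T k (p - d) = T k p - k * d := by
      refine ⟨T k p / k, div_pos (T_pos k p) hk0, fun d hd0 hd => ?_⟩
      rw [lt_div_iff₀ hk0] at hd
      have h2 := Int.le_ceil ((k : ℝ) * p)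
      have h5 : ⌈(k : ℝ) * (p - d)⌉ = ⌈(k : ℝ) * p⌉ := by
        rw [Int.ceil_eq_iff]
        unfold T at hd
        constructor
        · linarith
        · have : 0 ≤ d * k := by positivity
          linarith
      unfold T
      rw [h5]
      ring
    obtain ⟨δ', hδ', h'⟩ := h1
    refine ⟨min δ' (δ / k), lt_min hδ' (div_pos hδ hk0), fun d hd hd' => ?_⟩
    have hd1 : d < δ' := lt_of_lt_of_le hd' (min_le_left _ _)
    have hd2 : d < δ / k := lt_of_lt_of_le hd' (min_le_right _ _)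
    rw [lt_div_iff₀ hk0] at hd2
    rw [Function.iterate_succ_apply, Function.iterate_succ_apply, h' d hd hd1,
      h (k * d) (by positivity) (by linarith)]
    ring

theorem iter_orb {k : ℕ} {a : ℕ → ℝ} (ha : OrbK k a) (m i : ℕ) : (T k)^[m] (a i) = a (i + m) := by
  induction m with
  | zero => simp
  | succ m ih =>
    rw [Function.iterate_succ_apply', ih, ← ha.hs]
    rfl

open ND in
theorem nD {q : ℕ} (hk : 2 ≤ q) (h1 : S_HTsub) (h2 : S_HTmap) (h4 : S_HTsum)
    (a : ℕ → ℝ) (ha : OrbK q a) (β : Ordinal.{0}) (p : ℝ) (m : ℕ) (t : ℝ)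
    (hm : 1 ≤ m) (hper : (T q)^[m] p = p) (ht : t < p)
    (hT : ∀ t', t ≤ t' → t' < p → HasType (Set.range a ∩ Set.Ico t' p) (ω ^ β)) :
    ∃ μ : Ordinal.{0}, 1 ≤ μ ∧ β = μ + 1 := by
  have hk1 := k1 hk
  have hk2 : (2 : ℝ) ≤ q := by exact_mod_cast hk
  obtain ⟨δ, hδ, hδ'⟩ := iter_left hk m p
  rw [hper] at hδ'
  set A := Set.range a with hA
  obtain ⟨ε, hε, hε1, hε2⟩ : ∃ ε : ℝ, 0 < ε ∧ ε < δ ∧ ε ≤ p - t :=
    ⟨min (δ / 2) (p - t), lt_min (by linarith) (by linarith),
      lt_of_le_of_lt (min_le_left _ _) (by linarith), min_le_right _ _⟩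
  set M : ℝ := (q : ℝ) ^ m with hM
  have hM2 : 2 ≤ M := by
    calc (2 : ℝ) ≤ (q : ℝ) ^ 1 := by rw [pow_one]; exact hk2
      _ ≤ (q : ℝ) ^ m := pow_le_pow_right₀ (by linarith) hm
  have hM0 : 0 < M := by linarith
  set c : ℕ → ℝ := fun k => p - ε / M ^ k with hc
  have hcs : StrictMono c := by
    refine strictMono_nat_of_lt_succ fun k => ?_
    simp only [hc]
    have : ε / M ^ (k + 1) < ε / M ^ k := by
      apply div_lt_div_of_pos_left hε (pow_pos hM0 _)
      exact pow_lt_pow_right₀ (by linarith) (Nat.lt_succ_self k)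
    linarith
  have hcp : ∀ k, c k < p := fun k => by
    have : 0 < ε / M ^ k := div_pos hε (pow_pos hM0 _)
    simp only [hc]
    linarith
  have hct : ∀ k, t ≤ c k := fun k => by
    have : ε / M ^ k ≤ ε := div_le_self hε.le (one_le_pow₀ (by linarith))
    simp only [hc]
    linarith
  have hcl : ∀ x < p, ∃ n, x < c n := by
    intro x hx
    obtain ⟨n, hn⟩ := pow_unbounded_of_one_lt (ε / (p - x)) (by linarith : (1 : ℝ) < M)
    refine ⟨n, ?_⟩
    simp only [hc]
    have h0 : 0 < p - x := by linarith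
    rw [div_lt_iff₀ h0] at hn
    have : ε / M ^ n < p - x := by
      rw [div_lt_iff₀ (pow_pos hM0 _)]
      linarith
    linarith
  have hsub : ∀ k, ∃ τ : Ordinal.{0}, HasType (A ∩ Set.Ico (c k) (c (k + 1))) τ := by
    intro k
    obtain ⟨τ, _, hτ⟩ := h1 _ (A ∩ Set.Ico (c k) (c (k + 1))) _ (by
      intro x hx
      exact ⟨hx.1, hx.2.1, hx.2.2.trans (hcp _)⟩) (hT (c k) (hct k) (hcp k))
    exact ⟨τ, hτ⟩
  choose τ hτ using hsub
  have hmaps : ∀ k, Set.MapsTo ((T q)^[m]) (A ∩ Set.Ico (c (k + 1)) (c (k + 2)))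
      (A ∩ Set.Ico (c k) (c (k + 1))) := by
    rintro k x ⟨⟨i, rfl⟩, hx1, hx2⟩
    refine ⟨⟨i + m, (iter_orb ha m i).symm⟩, ?_⟩
    have hx3 : a i = p - (p - a i) := by ring
    simp only [hc] at hx1 hx2
    have e1 : ε / M ^ k = M * (ε / M ^ (k + 1)) := by
      rw [pow_succ]
      field_simp
    have e2 : ε / M ^ (k + 1) = M * (ε / M ^ (k + 2)) := by
      rw [pow_succ M (k + 1)]
      field_simp
    have hle : ε / M ^ (k + 1) ≤ ε := div_le_self hε.le (one_le_pow₀ (by linarith))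
    have hd0 : 0 ≤ p - a i := by
      have : 0 < ε / M ^ (k + 2) := div_pos hε (pow_pos hM0 _)
      linarith
    have hd1 : p - a i < δ := by linarith
    have hx4 : (T q)^[m] (a i) = p - M * (p - a i) := by
      conv_lhs => rw [hx3]
      exact hδ' _ hd0 hd1
    rw [hx4]
    constructor
    · simp only [hc]
      rw [e1]
      have := mul_le_mul_of_nonneg_left (show p - a i ≤ ε / M ^ (k + 1) by linarith) hM0.le
      linarith
    · simp only [hc]
      rw [e2]
      have := mul_lt_mul_of_pos_left (show ε / M ^ (k + 2) < p - a i by linarith) hM0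
      linarith
  have hmono : ∀ k, StrictMonoOn ((T q)^[m]) (A ∩ Set.Ico (c k) (c (k + 1))) := by
    intro k x hx y hy hxy
    have key : ∀ x, x ∈ A ∩ Set.Ico (c k) (c (k + 1)) → (T q)^[m] x = p - M * (p - x) := by
      intro x hx
      have h5 := hx.2.1
      have h6 := hx.2.2.trans (hcp _)
      simp only [hc] at h5
      have hle : ε / M ^ k ≤ ε := div_le_self hε.le (one_le_pow₀ (by linarith))
      have := hδ' (p - x) (by linarith) (by linarith)
      rwa [show p - (p - x) = x by ring] at this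
    rw [key x hx, key y hy]
    have := mul_lt_mul_of_pos_left hxy hM0
    linarith
  have hanti : ∀ k, τ (k + 1) ≤ τ k := fun k =>
    h2 _ _ _ _ ((T q)^[m]) (hτ (k + 1)) (hτ k) (hmono (k + 1)) (hmaps k)
  have hanti' : Antitone τ := antitone_nat_of_succ_le hanti
  obtain ⟨K, hK⟩ : ∃ K, ∀ k ≥ K, τ k = τ K := by
    obtain ⟨_, ⟨K, rfl⟩, hmin⟩ := Ordinal.lt_wf.has_min (Set.range τ) ⟨τ 0, 0, rfl⟩
    exact ⟨K, fun k hk => le_antisymm (hanti' hk) (not_lt.1 (hmin _ ⟨k, rfl⟩))⟩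
  have hsum : HasType (A ∩ Set.Ico (c K) p) (τ K * ω) := by
    refine h4 _ (fun n => c (K + n)) p (τ K) (fun i j hij => hcs (by omega)) (fun n => hcp _)
      (fun x hx => ?_) (fun x hx => hx.2) (fun n => ?_)
    · obtain ⟨n, hn⟩ := hcl x hx
      exact ⟨n, hn.trans_le (hcs.monotone (by omega))⟩
    · have : A ∩ Set.Ico (c K) p ∩ Set.Ico (c (K + n)) (c (K + (n + 1))) =
          A ∩ Set.Ico (c (K + n)) (c (K + n + 1)) := by
        ext x
        constructor
        · exact fun hx => ⟨hx.1.1, hx.2⟩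
        · exact fun hx => ⟨⟨hx.1, (hcs.monotone (by omega)).trans hx.2.1, hx.2.2.trans (hcp _)⟩,
            hx.2⟩
      rw [this, ← hK (K + n) (by omega)]
      exact hτ (K + n)
  have heq : τ K * ω = ω ^ β := HasType.unique hsum (hT _ (hct K) (hcp K))
  have hτ0 : τ K ≠ 0 := by
    intro h
    rw [h, zero_mul] at heq
    exact (opow_pos β omega0_pos).ne heq
  rw [mul_omega hτ0] at heq
  have hβμ : β = log ω (τ K) + 1 := ((opow_right_inj one_lt_omega0).1 heq).symm
  refine ⟨log ω (τ K), ?_, hβμ⟩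
  by_contra hμ
  have hμ0 : log ω (τ K) = 0 := Order.lt_one_iff.1 (not_le.1 hμ)
  have hfin : τ K < ω := by
    have := lt_opow_succ_log_self one_lt_omega0 (τ K)
    rw [hμ0] at this
    simpa using this
  obtain ⟨n, hn⟩ := lt_omega0.1 hfin
  have hB : ∀ k ≥ K, (A ∩ Set.Ico (c k) (c (k + 1))).Finite ∧
      (A ∩ Set.Ico (c k) (c (k + 1))).ncard = n := by
    intro k hk
    apply finite_of_type
    rw [← hn, ← hK k hk]
    exact hτ k
  have hsurj : ∀ k ≥ K, ∀ x ∈ A ∩ Set.Ico (c k) (c (k + 1)),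
      ∃ y ∈ A ∩ Set.Ico (c (k + 1)) (c (k + 2)), (T q)^[m] y = x := by
    intro k hk x hx
    have hinj := (hmono (k + 1)).injOn
    have himg : (T q)^[m] '' (A ∩ Set.Ico (c (k + 1)) (c (k + 2))) =
        A ∩ Set.Ico (c k) (c (k + 1)) := by
      refine Set.eq_of_subset_of_ncard_le (Set.image_subset_iff.2 (hmaps k)) ?_ (hB k hk).1
      have e1 := (hB k hk).2
      have e2 := (hB (k + 1) (by omega)).2
      have e3 := hinj.ncard_image
      exact (e1.trans e2.symm).le.trans e3.symm.le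
    rw [← himg] at hx
    exact hx
  have hn0 : n ≠ 0 := by
    rintro rfl
    exact hτ0 (by simpa using hn)
  obtain ⟨x, hx⟩ : (A ∩ Set.Ico (c K) (c (K + 1))).Nonempty := by
    rw [← Set.ncard_pos (hB K le_rfl).1, (hB K le_rfl).2]
    omega
  have hiter : ∀ j : ℕ, ∃ y ∈ A ∩ Set.Ico (c (K + j)) (c (K + j + 1)), (T q)^[m * j] y = x := by
    intro j
    induction j with
    | zero => exact ⟨x, hx, by simp⟩
    | succ j ih =>
      obtain ⟨y, hy, hyx⟩ := ih
      obtain ⟨z, hz, hzy⟩ := hsurj (K + j) (by omega) y hy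
      refine ⟨z, hz, ?_⟩
      rw [Nat.mul_succ, Function.iterate_add_apply, hzy, hyx]
  obtain ⟨i, hi⟩ := hx.1
  obtain ⟨y, ⟨⟨l, rfl⟩, _⟩, hy⟩ := hiter (i + 1)
  rw [iter_orb ha, ← hi] at hy
  have := ha.hi hy
  nlinarith

/-- the necessary direction for every base -/
theorem nEC {k : ℕ} (hk : 2 ≤ k) {d : ℕ → ℕ} (hd : ∀ n, d n < k) (α : Ordinal.{0})
    (hα : HasType (shiftSetK k d) α) :
    (∃ n : ℕ, 1 ≤ n ∧ α = (n : Ordinal.{0})) ∨
    ∃ (μ : Ordinal.{0}) (p : ℕ) (ρ : Ordinal.{0}), 1 ≤ μ ∧ μ.card ≤ Cardinal.aleph0 ∧ 1 ≤ p ∧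
      ρ < ω ^ (μ + 1) ∧ α = ω ^ (μ + 1) * (p : Ordinal.{0}) + ρ := by
  have hα0 := hα
  obtain ⟨hw, hty⟩ := hα
  have hcard : α.card = Cardinal.mk (shiftSetK k d) := by
    rw [← hty, card_type]
  by_cases hfin : (shiftSetK k d).Finite
  · left
    have hlt : α < ω := by
      rw [← card_lt_aleph0, hcard]
      exact Cardinal.lt_aleph0_iff_set_finite.2 hfin
    obtain ⟨n, hn⟩ := lt_omega0.1 hlt
    refine ⟨n, ?_, hn⟩
    rcases Nat.eq_zero_or_pos n with h0 | h0
    · exfalso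
      rw [h0] at hn
      have h1 : Cardinal.mk (shiftSetK k d) = 0 := by
        rw [← hcard, hn]; simp
      have h2 : Nonempty (shiftSetK k d) := ⟨⟨svk k d 0, ⟨0, rfl⟩⟩⟩
      exact (Cardinal.mk_ne_zero_iff.2 h2) h1
    · exact h0
  · right
    have hinf : (shiftSetK k d).Infinite := hfin
    have hOrb := nA hk hd hinf
    have hge : ω ≤ α := by
      by_contra hcon
      push Not at hcon
      rw [← card_lt_aleph0, hcard] at hcon
      exact hfin (Cardinal.lt_aleph0_iff_set_finite.1 hcon)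
    obtain ⟨β, n, ρ, hβ, hn, hρ, he⟩ := t_NE α hge
    have hT : HasType (Set.range (svk k d)) (ω ^ β * (n : Ordinal.{0}) + ρ) := by
      rw [← he]; exact hα0
    obtain ⟨p, m, hp0, hp1, hm, hpm, t, ht, htt⟩ :=
      nC hk t_HTsub t_HTmap t_HTsplit t_HTinit (svk k d) hOrb β n ρ hβ hn hρ hT
    obtain ⟨μ, hμ, hβμ⟩ :=
      nD hk t_HTsub t_HTmap t_HTsum (svk k d) hOrb β p m t hm hpm ht htt
    subst hβμ
    refine ⟨μ, n, ρ, hμ, ?_, hn, hρ, he⟩
    have h1 : α.card ≤ Cardinal.aleph0 :=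
      t_HTcount (shiftSetK k d) α (Set.countable_range _) hα0
    have h2 : μ ≤ α := by
      have h3 : μ + 1 ≤ ω ^ (μ + 1) := right_le_opow _ one_lt_omega0
      have h4 : ω ^ (μ + 1) ≤ ω ^ (μ + 1) * (n : Ordinal.{0}) := by
        have : (ω ^ (μ + 1) : Ordinal.{0}) * ((1 : ℕ) : Ordinal.{0}) ≤
            ω ^ (μ + 1) * (n : Ordinal.{0}) := by
          apply mul_le_mul_right
          exact_mod_cast hn
        simpa using this
      have h5 : μ ≤ μ + 1 := le_self_add
      rw [he]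
      exact h5.trans (h3.trans (h4.trans le_self_add))
    exact (card_le_card h2).trans h1

end Pool.Agent.Y860.SB
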