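import Pool.Agent.Y860.SB.Suf
import Pool.Agent.Y860.SB.Nec
import Pool.Agent.H560R3.SO.FINB
import Pool.Agent.H560R3.SO.NEC
import Pool.Agent.H560R3.SO.NA
import Pool.Agent.H560R3.SO.NB

/-!
Binary sequences read in base `k`, finite types, and the comparison of base 2 with the binary case.
-/

set_option autoImplicit false

namespace Pool.Agent.Y860.SB

open Ordinal Pool.Agent.H560R3.SO

theorem bin_thm : S_BIN := t_BIN (t_BIN0 t_CAT) t_BC t_TL t_NF t_LL t_LH t_HH t_BD t_BG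

/-- the binary types occur in every base -/
theorem binK {q : ℕ} (hq : 2 ≤ q) (μ : Ordinal.{0}) (p : ℕ) (ρ : Ordinal.{0}) (hμ : 1 ≤ μ)
    (hcard : μ.card ≤ Cardinal.aleph0) (hp : 1 ≤ p) (hρ : ρ < ω ^ (μ + 1))
    (hp1 : p = 1 → ρ = 0) :
    ∃ d : ℕ → ℕ, (∀ n, d n < q) ∧
      HasType (shiftSetK q d) (ω ^ (μ + 1) * (p : Ordinal.{0}) + ρ) := by
  obtain ⟨k, D0, D1, f, hcore⟩ := (t_CORE t_LAB t_ENU t_CAT t_RK t_EMB) μ hμ hcard
  obtain ⟨γ, g1, g2, g3, g4⟩ : ∃ γ : List Ordinal.{0}, γ.Pairwise (fun x y => y ≤ x) ∧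
      (∀ g ∈ γ, g ≤ μ) ∧ psum γ = ρ ∧ (p = 1 → γ = []) := by
    by_cases h : p = 1
    · refine ⟨[], List.Pairwise.nil, fun g hg => absurd hg (List.not_mem_nil), ?_, fun _ => rfl⟩
      rw [hp1 h]
      simp [psum]
    · obtain ⟨γ, g1, g2, g3⟩ := t_CNF ρ μ hρ
      exact ⟨γ, g1, g2, g3, fun h' => absurd h' h⟩
  obtain ⟨b, hb, F, hF, htri, G, hG⟩ := bin_thm μ k D0 D1 f hμ hcore p γ hp g1 g2 g4
  set d : ℕ → ℕ := fun n => if b n = true then 1 else 0 with hd
  have hdq : ∀ n, d n < q := by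
    intro n
    simp only [hd]
    split_ifs <;> omega
  have hnot : ∀ N, ∃ n ≥ N, d n + 1 < q ∨ d n = 0 := by
    intro N
    obtain ⟨n, hn, h⟩ := hb N
    exact ⟨n, hn, Or.inr (by simp [hd, h])⟩
  have hnot' : ∀ N, ∃ n ≥ N, d n + 1 < q := by
    intro N
    obtain ⟨n, hn, h⟩ := hb N
    refine ⟨n, hn, ?_⟩
    simp only [hd, h]
    simp
    omega
  refine ⟨d, hdq, ?_⟩
  have hlts : ∀ n n', LTs b n n' → LTs d n n' := by
    rintro n n' ⟨m, h1, h2⟩
    refine ⟨m, fun l hl => by simp only [hd, h1 l hl], ?_⟩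
    rw [Bool.lt_iff] at h2
    simp only [hd, h2.1, h2.2]
    simp
  have hv : ∀ n n', LTs b n n' → svk q d n < svk q d n' := fun n n' h =>
    svk_lt hq hdq hnot' n n' (hlts n n' h)
  have hiff : ∀ n n', svk q d n < svk q d n' ↔ F n < F n' := by
    intro n n'
    by_cases hn : n = n'
    · subst hn
      exact ⟨fun h => absurd h (lt_irrefl _), fun h => absurd h (lt_irrefl _)⟩
    · rcases htri n n' hn with ⟨h1, h2⟩ | ⟨h1, h2⟩
      · exact ⟨fun _ => h2, fun _ => hv _ _ h1⟩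
      · exact ⟨fun h => absurd h (lt_asymm (hv _ _ h1)), fun h => absurd h (lt_asymm h2)⟩
  rw [← g3]
  exact t_TYPE (svk q d) F _ G hiff hF (fun ξ η h1 h2 => (hiff _ _).1 (hv _ _ (hG ξ η h1 h2)))

/-- the finite types -/
theorem finK {q : ℕ} (hq : 2 ≤ q) (n : ℕ) (hn : 1 ≤ n) :
    ∃ d : ℕ → ℕ, (∀ m, d m < q) ∧ HasType (shiftSetK q d) (n : Ordinal.{0}) := by
  have hq1 := k1 hq
  have hq0 : (0 : ℝ) < q := by linarith
  set d : ℕ → ℕ := fun m => if n - 1 ≤ m then q - 1 else 0 with hd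
  have hdq : ∀ m, d m < q := by
    intro m
    simp only [hd]
    split_ifs <;> omega
  refine ⟨d, hdq, ?_⟩
  have h1 : ∀ i, n - 1 ≤ i → svk q d i = 1 := by
    intro i hi
    unfold svk
    rw [← tsum_geo hq]
    refine tsum_congr fun m => ?_
    have e : d (i + m) = q - 1 := by
      simp only [hd]
      rw [if_pos (by omega)]
    rw [e, Nat.cast_sub (by omega)]
    push_cast
    rfl
  have h2 : ∀ j, j ≤ n - 1 → svk q d (n - 1 - j) = (1 / (q : ℝ)) ^ j := by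
    intro j
    induction j with
    | zero => intro _; rw [Nat.sub_zero, h1 _ le_rfl, pow_zero]
    | succ j ih =>
      intro hj
      have h3 := svk_succ hq hdq (n - 1 - (j + 1))
      have h4 : d (n - 1 - (j + 1)) = 0 := by
        simp only [hd]
        rw [if_neg (by omega)]
      rw [show n - 1 - (j + 1) + 1 = n - 1 - j by omega, ih (by omega), h4] at h3
      rw [pow_succ, h3]
      field_simp
      push_cast
      ring
  have h3 : shiftSetK q d = (((Finset.range n).image (fun j => (1 / (q : ℝ)) ^ j) : Finset ℝ) :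
      Set ℝ) := by
    ext x
    simp only [shiftSetK, Set.mem_range, Finset.coe_image, Set.mem_image, Finset.mem_coe,
      Finset.mem_range]
    constructor
    · rintro ⟨i, rfl⟩
      by_cases hi : n - 1 ≤ i
      · exact ⟨0, by omega, by rw [h1 i hi, pow_zero]⟩
      · refine ⟨n - 1 - i, by omega, ?_⟩
        rw [← h2 (n - 1 - i) (by omega), show n - 1 - (n - 1 - i) = i by omega]
    · rintro ⟨j, hj, rfl⟩
      exact ⟨n - 1 - j, h2 j (by omega)⟩
  have h4 : ((Finset.range n).image (fun j => (1 / (q : ℝ)) ^ j)).card = n := by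
    rw [Finset.card_image_of_injective, Finset.card_range]
    refine pow_right_injective₀ (by positivity) ?_
    rw [Ne, div_eq_one_iff_eq (by linarith)]
    linarith
  have h5 := FINB.hasType_finite _ _ h3
  rw [h4] at h5
  exact h5

/-- base `2` is the binary case -/
theorem two {d : ℕ → ℕ} (hd : ∀ n, d n < 2) :
    shiftSetK 2 d = shiftSet (fun n => decide (d n = 1)) := by
  unfold shiftSetK shiftSet
  congr 1
  ext i
  unfold svk sv
  refine tsum_congr fun n => ?_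
  have h := hd (i + n)
  rcases (show d (i + n) = 0 ∨ d (i + n) = 1 by omega) with h1 | h1
  · simp [h1]
  · simp [h1]

theorem necTwo {d : ℕ → ℕ} (hd : ∀ n, d n < 2) (α : Ordinal.{0})
    (hα : HasType (shiftSetK 2 d) α) :
    (∃ n : ℕ, 1 ≤ n ∧ α = (n : Ordinal.{0})) ∨
    ∃ (μ : Ordinal.{0}) (p : ℕ) (ρ : Ordinal.{0}), 1 ≤ μ ∧ μ.card ≤ Cardinal.aleph0 ∧ 1 ≤ p ∧
      ρ < ω ^ (μ + 1) ∧ (p = 1 → ρ = 0) ∧ α = ω ^ (μ + 1) * (p : Ordinal.{0}) + ρ := by
  rw [two hd] at hα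
  exact (t_NEC t_NA (t_NB t_HTsub t_HTmap t_HTsplit t_HTinit)
    (t_NC t_HTsub t_HTmap t_HTsplit t_HTinit)
    (t_ND t_HTsub t_HTmap t_HTsplit t_HTsum) t_NE t_HTcount) _ α hα

/-- the classification in base `k` -/
theorem classify {k : ℕ} (hk : 2 ≤ k) (α : Ordinal.{0}) :
    (∃ d : ℕ → ℕ, (∀ n, d n < k) ∧ HasType (shiftSetK k d) α) ↔
      (∃ n : ℕ, 1 ≤ n ∧ α = (n : Ordinal.{0})) ∨
      ∃ (μ : Ordinal.{0}) (p : ℕ) (ρ : Ordinal.{0}), 1 ≤ μ ∧ μ.card ≤ Cardinal.aleph0 ∧ 1 ≤ p ∧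
        ρ < ω ^ (μ + 1) ∧ (k = 2 → p = 1 → ρ = 0) ∧ α = ω ^ (μ + 1) * (p : Ordinal.{0}) + ρ := by
  constructor
  · rintro ⟨d, hd, h⟩
    rcases Nat.eq_or_lt_of_le hk with h2 | h2
    · subst h2
      rcases necTwo hd α h with h3 | ⟨μ, p, ρ, a1, a2, a3, a4, a5, a6⟩
      · exact Or.inl h3
      · exact Or.inr ⟨μ, p, ρ, a1, a2, a3, a4, fun _ => a5, a6⟩
    · rcases nEC hk hd α h with h3 | ⟨μ, p, ρ, a1, a2, a3, a4, a6⟩
      · exact Or.inl h3
      · exact Or.inr ⟨μ, p, ρ, a1, a2, a3, a4, fun h => absurd h (by omega), a6⟩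
  · rintro (⟨n, hn, rfl⟩ | ⟨μ, p, ρ, a1, a2, a3, a4, a5, rfl⟩)
    · exact finK hk n hn
    · by_cases h : p = 1 → ρ = 0
      · exact binK hk μ p ρ a1 a2 a3 a4 h
      · have hp : p = 1 := by
          by_contra hcon
          exact h fun h' => absurd h' hcon
        have hk3 : 3 ≤ k := by
          by_contra hcon
          exact h (a5 (by omega))
        subst hp
        have := tern hk3 μ ρ a1 a2 a4
        simpa using this

end Pool.Agent.Y860.SB
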