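import Pool.Agent.H560R3.SO.Stm

/-!
Order types of well-ordered shift orbits of base `k` expansions: definitions and basic facts
(extension of the binary case `Pool.Agent.H560R3.SO` to every base `k ≥ 2`).
-/

set_option autoImplicit false

namespace Pool.Agent.Y860.SB

open Ordinal Pool.Agent.H560R3.SO

/-- The real number with base `k` digits `d i, d (i + 1), ...`. -/
noncomputable def svk (k : ℕ) (d : ℕ → ℕ) (i : ℕ) : ℝ :=
  ∑' n : ℕ, (d (i + n) : ℝ) / (k : ℝ) ^ (n + 1)

/-- the set of all shifts -/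
def shiftSetK (k : ℕ) (d : ℕ → ℕ) : Set ℝ := Set.range (svk k d)

section basic

variable {k : ℕ} (hk : 2 ≤ k) {d : ℕ → ℕ} (hd : ∀ n, d n < k)

include hk

theorem k1 : (1 : ℝ) < k := by
  have : (2 : ℝ) ≤ k := by exact_mod_cast hk
  linarith

theorem geo_eq (n : ℕ) : ((k : ℝ) - 1) / (k : ℝ) ^ (n + 1) =
    ((k : ℝ) - 1) / k * (1 / (k : ℝ)) ^ n := by
  have h1 := k1 hk
  have h0 : (k : ℝ) ≠ 0 := by linarith
  rw [one_div_pow, pow_succ]
  field_simp

theorem summable_geo : Summable (fun n : ℕ => ((k : ℝ) - 1) / (k : ℝ) ^ (n + 1)) := by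
  have h1 := k1 hk
  simp_rw [geo_eq hk]
  refine (summable_geometric_of_lt_one (by positivity) ?_).mul_left _
  rw [div_lt_one (by linarith)]
  exact h1

theorem tsum_geo : ∑' n : ℕ, ((k : ℝ) - 1) / (k : ℝ) ^ (n + 1) = 1 := by
  have h1 := k1 hk
  simp_rw [geo_eq hk]
  rw [tsum_mul_left, tsum_geometric_of_lt_one (by positivity)
    (by rw [div_lt_one (by linarith)]; exact h1)]
  have h0 : (k : ℝ) ≠ 0 := by linarith
  have h2 : (k : ℝ) - 1 ≠ 0 := by linarith
  rw [show (1 - 1 / (k : ℝ)) = ((k : ℝ) - 1) / k by field_simp]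
  field_simp

include hd

theorem dig_le (n : ℕ) : (d n : ℝ) ≤ (k : ℝ) - 1 := by
  have := hd n
  have h : (d n : ℝ) + 1 ≤ k := by exact_mod_cast this
  linarith

theorem summ (i : ℕ) : Summable (fun n : ℕ => (d (i + n) : ℝ) / (k : ℝ) ^ (n + 1)) := by
  refine Summable.of_nonneg_of_le (fun n => ?_) (fun n => ?_) (summable_geo hk)
  · positivity
  · have h1 := k1 hk
    gcongr
    exact dig_le hk hd _

theorem svk_nonneg (i : ℕ) : 0 ≤ svk k d i := tsum_nonneg fun n => by positivity

theorem svk_le (i : ℕ) : svk k d i ≤ 1 := by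
  rw [← tsum_geo hk]
  refine (summ hk hd i).tsum_le_tsum (fun n => ?_) (summable_geo hk)
  have h1 := k1 hk
  gcongr
  exact dig_le hk hd _

theorem svk_succ (i : ℕ) : svk k d (i + 1) = k * svk k d i - d i := by
  have h1 := k1 hk
  have h0 : (k : ℝ) ≠ 0 := by linarith
  have h : svk k d i = (d i : ℝ) / k + ∑' n : ℕ, (d (i + (n + 1)) : ℝ) / (k : ℝ) ^ (n + 1 + 1) := by
    unfold svk
    rw [(summ hk hd i).tsum_eq_zero_add]
    simp
  have h2 : ∑' n : ℕ, (d (i + (n + 1)) : ℝ) / (k : ℝ) ^ (n + 1 + 1) = svk k d (i + 1) / k := by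
    unfold svk
    rw [← tsum_div_const]
    congr 1
    ext n
    rw [show i + 1 + n = i + (n + 1) by ring, pow_succ (k : ℝ) (n + 1)]
    field_simp
  rw [h2] at h
  rw [h]
  field_simp
  ring

theorem svk_lt_one : ∀ (e i : ℕ), d (i + e) + 1 < k → svk k d i < 1 := by
  intro e
  have h1 := k1 hk
  induction e with
  | zero =>
    intro i h
    have h2 := svk_succ hk hd i
    have h3 := svk_le hk hd (i + 1)
    rw [add_zero] at h
    have h4 : (d i : ℝ) + 1 < k := by exact_mod_cast h
    by_contra hcon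
    push Not at hcon
    nlinarith
  | succ e ih =>
    intro i h
    have h2 := ih (i + 1) (by rw [show i + 1 + e = i + (e + 1) by ring]; exact h)
    have h3 := svk_succ hk hd i
    have h4 := dig_le hk hd i
    by_contra hcon
    push Not at hcon
    nlinarith

/-- lexicographic comparison implies comparison of the values -/
theorem svk_lt (hb : ∀ N, ∃ n ≥ N, d n + 1 < k) (i j : ℕ) (h : LTs d i j) :
    svk k d i < svk k d j := by
  have h1 := k1 hk
  obtain ⟨m, hm, hlt⟩ := h
  induction m generalizing i j with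
  | zero =>
    rw [add_zero, add_zero] at hlt
    obtain ⟨n, hn, hn2⟩ := hb (i + 1)
    have h2 := svk_lt_one hk hd (n - (i + 1)) (i + 1)
      (by rw [show i + 1 + (n - (i + 1)) = n by omega]; exact hn2)
    have h3 := svk_nonneg hk hd (j + 1)
    rw [svk_succ hk hd] at h2 h3
    have h4 : (d i : ℝ) + 1 ≤ d j := by exact_mod_cast hlt
    by_contra hcon
    push Not at hcon
    nlinarith
  | succ m ih =>
    have h5 := ih (i + 1) (j + 1) (fun l hl => by
      have := hm (l + 1) (by omega)
      rw [show i + 1 + l = i + (l + 1) by ring, show j + 1 + l = j + (l + 1) by ring]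
      exact this) (by
      rw [show i + 1 + m = i + (m + 1) by ring, show j + 1 + m = j + (m + 1) by ring]
      exact hlt)
    have h6 := hm 0 (by omega)
    rw [add_zero, add_zero] at h6
    rw [svk_succ hk hd, svk_succ hk hd, h6] at h5
    nlinarith

end basic

end Pool.Agent.Y860.SB
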