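import Pool.Agent.Y860.SB.Tern
import Pool.Agent.H560R3.SO.CORE
import Pool.Agent.H560R3.SO.LAB
import Pool.Agent.H560R3.SO.ENU
import Pool.Agent.H560R3.SO.RK
import Pool.Agent.H560R3.SO.EMB
import Pool.Agent.H560R3.SO.CNF
import Pool.Agent.H560R3.SO.TYPE

/-!
Ternary sequences with blocks `1^k 0 2^c`: the ranks and the types `ω ^ (μ + 1) + ρ`.
-/

set_option autoImplicit false

namespace Pool.Agent.Y860.SB

open Ordinal Pool.Agent.H560R3.SO

theorem small_add {μ x y : Ordinal.{0}} (hx : x < ω ^ μ) (hy : y < ω ^ μ) : x + y < ω ^ μ :=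
  isPrincipal_add_omega0_opow μ hx hy

theorem absorb {μ x : Ordinal.{0}} (hx : x < ω ^ μ) : x + ω ^ μ = ω ^ μ :=
  add_omega0_opow hx

theorem pow_lt_succ (μ : Ordinal.{0}) : (ω ^ μ : Ordinal.{0}) < ω ^ (μ + 1) := LH.w_lt μ

/-- the rank of a position of the ternary sequence; `κ = ω ^ μ + psum γ` -/
def Rep (μ : Ordinal.{0}) (k c : ℕ → ℕ) (qos : ℕ → ℕ) (f : ℕ → Ordinal.{0})
    (γ : List Ordinal.{0}) (X : ℕ → Ordinal.{0}) (n : ℕ) (x : Ordinal.{0}) : Prop :=
  (∃ i o, o < k i ∧ n = qos i + o ∧ x = (ω ^ μ + psum γ) +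
    (ω ^ μ * (((k i - o) * (γ.length + 1) + c i : ℕ) : Ordinal.{0}) + f (i + 1))) ∨
  (∃ i o, o < c i ∧ n = qos i + (k i + 1 + o) ∧
    x = (ω ^ μ + psum γ) + (ω ^ (μ + 1) + (psum (γ.take (c i - o - 1)) + X i))) ∨
  (∃ i, c i = 0 ∧ n = qos i + k i ∧ x = f (i + 1)) ∨
  (∃ i, 0 < c i ∧ n = qos i + k i ∧ x = ω ^ μ + (psum (γ.take (c i - 1)) + X i))

section main

variable {μ : Ordinal.{0}} {k c : ℕ → ℕ} {g : ℕ → ℕ} {qos : ℕ → ℕ} {b : ℕ → Bool} {pos : ℕ → ℕ}
  {f : ℕ → Ordinal.{0}} {γ : List Ordinal.{0}} {X : ℕ → Ordinal.{0}}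

theorem exists_rep (ht : Ter k c g qos) (n : ℕ) : ∃ x, Rep μ k c qos f γ X n x := by
  rcases cases3 ht n with ⟨i, o, ho, rfl⟩ | ⟨i, rfl⟩ | ⟨i, o, ho, rfl⟩
  · exact ⟨_, Or.inl ⟨i, o, ho, rfl, rfl⟩⟩
  · rcases Nat.eq_zero_or_pos (c i) with h | h
    · exact ⟨_, Or.inr (Or.inr (Or.inl ⟨i, h, rfl, rfl⟩))⟩
    · exact ⟨_, Or.inr (Or.inr (Or.inr ⟨i, h, rfl, rfl⟩))⟩
  · exact ⟨_, Or.inr (Or.inl ⟨i, o, ho, rfl, rfl⟩)⟩

theorem psum_lt' (hc : Ctx μ 2 k c b pos f γ X) {q i : ℕ} (h1 : 1 ≤ q) (h2 : q ≤ c i) :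
    psum (γ.take (q - 1)) + X i < psum γ :=
  (BD.psum_lt hc h1 h2).trans_le (BD.psum_take_le' γ q)

theorem rep_lt (hc : Ctx μ 2 k c b pos f γ X) (hγ : psum γ < ω ^ (μ + 1)) {n : ℕ}
    {x : Ordinal.{0}} (h : Rep μ k c qos f γ X n x) : x < ω ^ (μ + 1) + psum γ := by
  have hκ : ω ^ μ + psum γ < ω ^ (μ + 1) := small_add (pow_lt_succ μ) hγ
  rcases h with ⟨i, o, ho, rfl, rfl⟩ | ⟨i, o, ho, rfl, rfl⟩ | ⟨i, hi, rfl, rfl⟩ | ⟨i, hi, rfl, rfl⟩
  · refine lt_of_lt_of_le ?_ le_self_add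
    exact small_add hκ (BD.add_lt_W _ (hc.hf (i + 1)))
  · rw [← add_assoc, absorb hκ]
    apply (add_lt_add_iff_left _).mpr
    exact psum_lt' hc (q := c i - o) (by omega) (by omega)
  · refine lt_of_lt_of_le ?_ le_self_add
    exact (hc.hf _).trans (pow_lt_succ μ)
  · refine lt_of_lt_of_le ?_ le_self_add
    refine lt_trans ?_ hκ
    apply (add_lt_add_iff_left _).mpr
    exact psum_lt' hc hi le_rfl

theorem flow0 (j i : ℕ) : Pool.Agent.H560R3.SO.Flow μ f 2 γ.length c 0 j i = ω ^ (μ + 1) * ((1 : ℕ) : Ordinal.{0}) +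
    (ω ^ μ * ((j * (γ.length + 1) + c i : ℕ) : Ordinal.{0}) + f (i + 1)) := by
  unfold Pool.Agent.H560R3.SO.Flow
  rw [if_neg (by norm_num)]

theorem fhigh0 (q i : ℕ) : Fhigh μ f 2 γ X 0 q i = ω ^ (μ + 1) * ((2 : ℕ) : Ordinal.{0}) +
    (psum (γ.take (q - 1)) + X i) := by
  unfold Fhigh
  rw [if_pos rfl]

theorem small_of (hc : Ctx μ 2 k c b pos f γ X) {n : ℕ} {x : Ordinal.{0}}
    (h : (∃ i, c i = 0 ∧ n = qos i + k i ∧ x = f (i + 1)) ∨
      (∃ i, 0 < c i ∧ n = qos i + k i ∧ x = ω ^ μ + (psum (γ.take (c i - 1)) + X i))) :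
    x < ω ^ μ + psum γ := by
  rcases h with ⟨i, hi, rfl, rfl⟩ | ⟨i, hi, rfl, rfl⟩
  · exact (hc.hf _).trans_le le_self_add
  · apply (add_lt_add_iff_left _).mpr
    exact psum_lt' hc hi le_rfl

theorem zero_of (ht : Ter k c g qos) {n : ℕ} {x : Ordinal.{0}}
    (h : (∃ i, c i = 0 ∧ n = qos i + k i ∧ x = f (i + 1)) ∨
      (∃ i, 0 < c i ∧ n = qos i + k i ∧ x = ω ^ μ + (psum (γ.take (c i - 1)) + X i))) :
    g n = 0 := by
  rcases h with ⟨i, hi, rfl, rfl⟩ | ⟨i, hi, rfl, rfl⟩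
  · exact g0 ht i
  · exact g0 ht i

theorem lts_zero {n n' : ℕ} (h : g n < g n') : LTs g n n' := ⟨0, fun l hl => by omega, h⟩

/-- comparison of two positions with letter `0` -/
theorem cmp0 (ht : Ter k c g qos) (hc : Ctx μ 2 k c b pos f γ X) {n n' : ℕ} (hn : n ≠ n')
    {x x' : Ordinal.{0}}
    (h : (∃ i, c i = 0 ∧ n = qos i + k i ∧ x = f (i + 1)) ∨
      (∃ i, 0 < c i ∧ n = qos i + k i ∧ x = ω ^ μ + (psum (γ.take (c i - 1)) + X i)))
    (h' : (∃ i, c i = 0 ∧ n' = qos i + k i ∧ x' = f (i + 1)) ∨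
      (∃ i, 0 < c i ∧ n' = qos i + k i ∧ x' = ω ^ μ + (psum (γ.take (c i - 1)) + X i))) :
    (LTs g n n' ∧ x < x') ∨ (LTs g n' n ∧ x' < x) := by
  have hb := hc.hb
  have e0 : g n = g n' := by rw [zero_of ht h, zero_of ht h']
  have key : ∀ i, c i = 0 → qos i + k i + 1 = qos (i + 1) := fun i hi => by
    rw [ht.hs i, hi]; ring
  have one : ∀ i, c i = 0 → g (qos i + k i + 1) = 1 := fun i hi => by
    rw [key i hi]; exact gs ht _
  have two : ∀ i, 0 < c i → g (qos i + k i + 1) = 2 := fun i hi => by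
    have := g2 ht (i := i) (o := 0) hi
    rw [show qos i + (k i + 1 + 0) = qos i + k i + 1 by ring] at this
    exact this
  rcases h with ⟨i, hi, rfl, rfl⟩ | ⟨i, hi, rfl, rfl⟩ <;>
    rcases h' with ⟨i', hi', rfl, rfl⟩ | ⟨i', hi', rfl, rfl⟩
  · have hne : i ≠ i' := by rintro rfl; exact hn rfl
    rcases hc.ht (i + 1) (i' + 1) (by omega) with ⟨h1, h2⟩ | ⟨h1, h2⟩
    · left
      refine ⟨lts_cons e0 (conv ht hb ?_), h2⟩
      rw [key i hi, key i' hi', psi_q ht hb, psi_q ht hb]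
      exact h1
    · right
      refine ⟨lts_cons e0.symm (conv ht hb ?_), h2⟩
      rw [key i hi, key i' hi', psi_q ht hb, psi_q ht hb]
      exact h1
  · left
    refine ⟨lts_cons e0 (lts_zero ?_), (hc.hf _).trans_le le_self_add⟩
    rw [one i hi, two i' hi']
    norm_num
  · right
    refine ⟨lts_cons e0.symm (lts_zero ?_), (hc.hf _).trans_le le_self_add⟩
    rw [one i' hi', two i hi]
    norm_num
  · have hne : i ≠ i' := by rintro rfl; exact hn rfl
    have H := high_of ht hb (i := i) (o := 0) hi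
    have H' := high_of ht hb (i := i') (o := 0) hi'
    have hne2 : psi g (qos i + (k i + 1 + 0)) ≠ psi g (qos i' + (k i' + 1 + 0)) := by
      intro e
      have := (psi_mono g).injective e
      omega
    rcases t_HH μ 2 k c b pos f γ X hc _ _ _ _ _ _ _ _ H H' hne2 with ⟨h1, h2⟩ | ⟨h1, h2⟩
    · left
      rw [fhigh0, fhigh0, add_lt_add_iff_left, Nat.sub_zero, Nat.sub_zero] at h2
      refine ⟨lts_cons e0 ?_, (add_lt_add_iff_left _).mpr h2⟩
      have := conv ht hb h1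
      rwa [show qos i + (k i + 1 + 0) = qos i + k i + 1 by ring,
        show qos i' + (k i' + 1 + 0) = qos i' + k i' + 1 by ring] at this
    · right
      rw [fhigh0, fhigh0, add_lt_add_iff_left, Nat.sub_zero, Nat.sub_zero] at h2
      refine ⟨lts_cons e0.symm ?_, (add_lt_add_iff_left _).mpr h2⟩
      have := conv ht hb h1
      rwa [show qos i + (k i + 1 + 0) = qos i + k i + 1 by ring,
        show qos i' + (k i' + 1 + 0) = qos i' + k i' + 1 by ring] at this

/-- comparison of two positions -/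
theorem cmp (ht : Ter k c g qos) (hc : Ctx μ 2 k c b pos f γ X) {n n' : ℕ} (hn : n ≠ n')
    {x x' : Ordinal.{0}} (h : Rep μ k c qos f γ X n x) (h' : Rep μ k c qos f γ X n' x') :
    (LTs g n n' ∧ x < x') ∨ (LTs g n' n ∧ x' < x) := by
  have hb := hc.hb
  have hne : psi g n ≠ psi g n' := fun e => hn ((psi_mono g).injective e)
  unfold Rep at h h'
  rcases h with ⟨i, o, ho, e, ex⟩ | ⟨i, o, ho, e, ex⟩ | h
  · have g1n : g n = 1 := by rw [e]; exact g1 ht ho
    rcases h' with ⟨i', o', ho', e', ex'⟩ | ⟨i', o', ho', e', ex'⟩ | h'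
    · have H := low_of ht hb ho
      have H' := low_of ht hb ho'
      rw [← e] at H
      rw [← e'] at H'
      rcases t_LL μ 2 k c b pos f γ X hc _ _ _ _ _ _ _ _ H H' hne with ⟨h1, h2⟩ | ⟨h1, h2⟩
      · left
        rw [flow0, flow0, add_lt_add_iff_left] at h2
        rw [ex, ex']
        exact ⟨conv ht hb h1, (add_lt_add_iff_left _).mpr h2⟩
      · right
        rw [flow0, flow0, add_lt_add_iff_left] at h2
        rw [ex, ex']
        exact ⟨conv ht hb h1, (add_lt_add_iff_left _).mpr h2⟩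
    · left
      have g2n : g n' = 2 := by rw [e']; exact g2 ht ho'
      refine ⟨lts_zero (by rw [g1n, g2n]; norm_num), ?_⟩
      rw [ex, ex']
      apply (add_lt_add_iff_left _).mpr
      exact (BD.add_lt_W _ (hc.hf (i + 1))).trans_le le_self_add
    · right
      refine ⟨lts_zero (by rw [g1n, zero_of ht h']; norm_num), ?_⟩
      rw [ex]
      exact (small_of hc h').trans_le le_self_add
  · have g2n : g n = 2 := by rw [e]; exact g2 ht ho
    rcases h' with ⟨i', o', ho', e', ex'⟩ | ⟨i', o', ho', e', ex'⟩ | h'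
    · right
      have g1n : g n' = 1 := by rw [e']; exact g1 ht ho'
      refine ⟨lts_zero (by rw [g1n, g2n]; norm_num), ?_⟩
      rw [ex, ex']
      apply (add_lt_add_iff_left _).mpr
      exact (BD.add_lt_W _ (hc.hf (i' + 1))).trans_le le_self_add
    · have H := high_of ht hb ho
      have H' := high_of ht hb ho'
      rw [← e] at H
      rw [← e'] at H'
      rcases t_HH μ 2 k c b pos f γ X hc _ _ _ _ _ _ _ _ H H' hne with ⟨h1, h2⟩ | ⟨h1, h2⟩
      · left
        rw [fhigh0, fhigh0, add_lt_add_iff_left] at h2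
        rw [ex, ex']
        exact ⟨conv ht hb h1, (add_lt_add_iff_left _).mpr ((add_lt_add_iff_left _).mpr h2)⟩
      · right
        rw [fhigh0, fhigh0, add_lt_add_iff_left] at h2
        rw [ex, ex']
        exact ⟨conv ht hb h1, (add_lt_add_iff_left _).mpr ((add_lt_add_iff_left _).mpr h2)⟩
    · right
      refine ⟨lts_zero (by rw [g2n, zero_of ht h']; norm_num), ?_⟩
      rw [ex]
      exact (small_of hc h').trans_le le_self_add
  · rcases h' with ⟨i', o', ho', e', ex'⟩ | ⟨i', o', ho', e', ex'⟩ | h'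
    · left
      have g1n : g n' = 1 := by rw [e']; exact g1 ht ho'
      refine ⟨lts_zero (by rw [g1n, zero_of ht h]; norm_num), ?_⟩
      rw [ex']
      exact (small_of hc h).trans_le le_self_add
    · left
      have g2n : g n' = 2 := by rw [e']; exact g2 ht ho'
      refine ⟨lts_zero (by rw [g2n, zero_of ht h]; norm_num), ?_⟩
      rw [ex']
      exact (small_of hc h).trans_le le_self_add
    · exact cmp0 ht hc hn h h'

/-- ranks in the binary sequence -/
theorem exists_rank (hc : Ctx μ 2 k c b pos f γ X) : ∃ F : ℕ → Ordinal.{0},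
    (∀ n n', LTs b n n' → F n < F n') ∧
    ∀ n, ω ^ (μ + 1) + ω ^ μ * ((γ.length + 1 : ℕ) : Ordinal.{0}) ≤ F n → b n = true := by
  have hb := hc.hb
  have hF : ∀ n, ∃ o : Ordinal.{0},
      (∃ z j i, Low 2 k c b pos n z j i ∧ o = Pool.Agent.H560R3.SO.Flow μ f 2 γ.length c z j i) ∨
      (∃ z q i, High 2 c b pos n z q i ∧ o = Fhigh μ f 2 γ X z q i) := by
    intro n
    rcases t_NF 2 k c b pos hb n with ⟨z, j, i, h⟩ | ⟨z, q, i, h⟩
    · exact ⟨_, Or.inl ⟨z, j, i, h, rfl⟩⟩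
    · exact ⟨_, Or.inr ⟨z, q, i, h, rfl⟩⟩
  choose F hF using hF
  refine ⟨F, ?_, ?_⟩
  · intro n n' hlt
    have hne : n ≠ n' := by rintro rfl; exact lts_asymm hlt hlt
    have key : (LTs b n n' ∧ F n < F n') ∨ (LTs b n' n ∧ F n' < F n) := by
      rcases hF n with ⟨z, j, i, h, ho⟩ | ⟨z, q, i, h, ho⟩ <;>
        rcases hF n' with ⟨z', j', i', h', ho'⟩ | ⟨z', q', i', h', ho'⟩ <;> rw [ho, ho']
      · exact t_LL μ 2 k c b pos f γ X hc n z j i n' z' j' i' h h' hne
      · exact t_LH μ 2 k c b pos f γ X hc n z j i n' z' q' i' h h'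
      · exact (t_LH μ 2 k c b pos f γ X hc n' z' j' i' n z q i h' h).symm
      · exact t_HH μ 2 k c b pos f γ X hc n z q i n' z' q' i' h h' hne
    rcases key with h | h
    · exact h.2
    · exact absurd h.1 (lts_asymm hlt)
  · intro n hn
    have hpos : (0 : Ordinal.{0}) < ω ^ μ := opow_pos μ omega0_pos
    rcases hF n with ⟨z, j, i, h, ho⟩ | ⟨z, q, i, h, ho⟩
    · have h1 := (LH.low_bits (by norm_num) h).2.1
      rcases Nat.eq_zero_or_pos z with hz | hz
      · rw [hz] at h1; simpa using h1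
      · exfalso
        rw [ho] at hn
        have h2 : Pool.Agent.H560R3.SO.Flow μ f 2 γ.length c z j i < ω ^ (μ + 1) := by
          have hz2 := h.2.2.1
          rcases Nat.lt_or_ge z 2 with h3 | h3
          · have := LH.flow_lt μ f 2 γ.length c z j i hc.hf h3
            have e : 2 - z = 1 := by omega
            rw [e] at this
            simpa using this
          · have e : z = 2 := by omega
            unfold Pool.Agent.H560R3.SO.Flow
            rw [if_pos e]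
            exact (hc.hf i).trans (pow_lt_succ μ)
        exact absurd (h2.trans_le (le_self_add.trans hn)) (lt_irrefl _)
    · have h1 := (LH.high_bits hb h).2.1
      rcases Nat.eq_zero_or_pos z with hz | hz
      · rw [hz] at h1; simpa using h1
      · exfalso
        rw [ho] at hn
        have hz2 := h.2.2.1
        have hq : q ≤ γ.length := h.2.1.trans (hc.hC i)
        have h2 : Fhigh μ f 2 γ X z q i <
            ω ^ (μ + 1) + ω ^ μ * ((γ.length + 1 : ℕ) : Ordinal.{0}) := by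
          unfold Fhigh
          rw [if_neg (by omega)]
          have h3 : ω ^ μ * (q : Ordinal.{0}) + f (i + 1) <
              ω ^ μ * ((γ.length + 1 : ℕ) : Ordinal.{0}) :=
            BD.mul_add_lt (hc.hf (i + 1)) (by omega)
          have h4 : ω ^ (μ + 1) * ((2 - z : ℕ) : Ordinal.{0}) ≤ ω ^ (μ + 1) := by
            have := BD.mul_nat_le (W := ω ^ (μ + 1)) (show 2 - z ≤ 1 by omega)
            simpa using this
          exact lt_of_lt_of_le ((add_lt_add_iff_left _).mpr h3) (add_le_add h4 le_rfl)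
        exact absurd (h2.trans_le hn) (lt_irrefl _)

theorem self_le {F : ℕ → Ordinal.{0}} {G : Ordinal.{0} → ℕ} {τ : Ordinal.{0}}
    (h : ∀ ξ η, ξ < η → η < τ → F (G ξ) < F (G η)) : ∀ ζ < τ, ζ ≤ F (G ζ) := by
  intro ζ
  induction ζ using WellFoundedLT.induction with
  | ind ζ ih =>
    intro hζ
    by_contra hcon
    push Not at hcon
    have h1 := ih _ hcon (hcon.trans hζ)
    have h2 := h _ _ hcon hζ
    exact absurd (h1.trans_lt h2) (lt_irrefl _)

/-- the lower embedding -/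
theorem lower (ht : Ter k c g qos) (hc : Ctx μ 2 k c b pos f γ X)
    (hG : ∃ G : Ordinal.{0} → ℕ, ∀ ξ η, ξ < η →
      η < ω ^ (μ + 1) * ((2 : ℕ) : Ordinal.{0}) + psum γ → LTs b (G ξ) (G η)) :
    ∃ G : Ordinal.{0} → ℕ, ∀ ξ η, ξ < η → η < ω ^ (μ + 1) + psum γ → LTs g (G ξ) (G η) := by
  classical
  obtain ⟨G, hG⟩ := hG
  obtain ⟨F, hF1, hF2⟩ := exists_rank hc
  have hb := hc.hb
  have hself := self_le (F := F) (G := G) fun ξ η h1 h2 => hF1 _ _ (hG ξ η h1 h2)
  set B : Ordinal.{0} := ω ^ (μ + 1) + ω ^ μ * ((γ.length + 1 : ℕ) : Ordinal.{0}) with hB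
  have hsm : ω ^ μ * ((γ.length + 1 : ℕ) : Ordinal.{0}) < ω ^ (μ + 1) := by
    have := BD.add_lt_W (μ := μ) (f := 0) (γ.length + 1) (opow_pos μ omega0_pos)
    simpa using this
  have htot : B + (ω ^ (μ + 1) + psum γ) = ω ^ (μ + 1) * ((2 : ℕ) : Ordinal.{0}) + psum γ := by
    rw [hB, add_assoc, ← add_assoc (ω ^ μ * _), absorb hsm, ← add_assoc]
    congr 1
    rw [show ((2 : ℕ) : Ordinal.{0}) = 1 + 1 by norm_num, mul_add, mul_one]
  have hex : ∀ ξ, ξ < ω ^ (μ + 1) + psum γ → ∃ m, psi g m = G (B + ξ) := by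
    intro ξ hξ
    apply psi_surj ht hb
    apply hF2
    refine le_self_add.trans (hself (B + ξ) ?_)
    rw [← htot]
    exact (add_lt_add_iff_left _).mpr hξ
  refine ⟨fun ξ => if h : ∃ m, psi g m = G (B + ξ) then h.choose else 0, ?_⟩
  intro ξ η h1 h2
  have e1 := hex ξ (h1.trans h2)
  have e2 := hex η h2
  simp only [dif_pos e1, dif_pos e2]
  apply conv ht hb
  rw [e1.choose_spec, e2.choose_spec]
  apply hG
  · exact (add_lt_add_iff_left _).mpr h1
  · rw [← htot]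
    exact (add_lt_add_iff_left _).mpr h2

end main

/-- the types `ω ^ (μ + 1) + ρ` in every base `q ≥ 3` -/
theorem tern {q : ℕ} (hq : 3 ≤ q) (μ ρ : Ordinal.{0}) (hμ : 1 ≤ μ)
    (hcard : μ.card ≤ Cardinal.aleph0) (hρ : ρ < ω ^ (μ + 1)) :
    ∃ d : ℕ → ℕ, (∀ n, d n < q) ∧ HasType (shiftSetK q d) (ω ^ (μ + 1) + ρ) := by
  obtain ⟨k, D0, D1, f, hcore⟩ := (t_CORE t_LAB t_ENU t_CAT t_RK t_EMB) μ hμ hcard
  obtain ⟨γ, hγ, hγμ, hsum⟩ := t_CNF ρ μ hρ
  obtain ⟨G1, hG1a, hG1b⟩ := hcore.hG1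
  have hinj : ∀ ξ < ω ^ μ, ∀ η < ω ^ μ, G1 ξ = G1 η → ξ = η := by
    intro ξ hξ η hη he
    rcases lt_trichotomy ξ η with h | h | h
    · have := hG1b ξ η h hη
      rw [he] at this
      exact absurd this (lt_irrefl _)
    · exact h
    · have := hG1b η ξ h hξ
      rw [he] at this
      exact absurd this (lt_irrefl _)
  obtain ⟨c, X, hC, hcl⟩ := t_BC μ D1 G1 γ hG1a hinj hγ hγμ
  obtain ⟨b, pos, hb⟩ := (t_BIN0 t_CAT) 2 k c (by norm_num) hcore.hk
  have hTL' := t_TL 2 k c b pos D1 hb hcore.hu (fun i hi => (hC.h1 i hi).1)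
  have hctx : Ctx μ 2 k c b pos f γ X :=
    { hμ := hμ
      hb := hb
      hf := hcore.hf
      ht := by
        intro i i' hne
        rcases hcore.hc i i' hne with ⟨h2, h3⟩ | ⟨h2, h3⟩
        · exact Or.inl ⟨hTL' i i' h2, h3⟩
        · exact Or.inr ⟨hTL' i' i h2, h3⟩
      hC := hcl
      h1 := fun h => by norm_num at h
      hg := hγμ
      hX := hC.h2
      hXm := by
        intro i i' hi hi' hlt
        obtain ⟨-, ha, hGa⟩ := hC.h1 i hi
        obtain ⟨-, ha', hGa'⟩ := hC.h1 i' hi'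
        rcases lt_trichotomy (X i) (X i') with h | h | h
        · exact h
        · exfalso
          have e : i = i' := hGa.symm.trans ((congrArg G1 h).trans hGa')
          rw [e] at hlt
          exact absurd hlt (lt_irrefl _)
        · exfalso
          have h4 := hG1b (X i') (X i) h ha
          rw [hGa, hGa'] at h4
          exact absurd h4 (lt_asymm hlt) }
  have hD0 : ∀ i ∈ D0, c i = 0 := by
    intro i hi
    by_contra hcon
    exact Set.disjoint_left.1 hcore.hd hi (hC.h1 i hcon).1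
  have hGb := t_BG μ 2 k c b pos f γ X D0 D1 G1 hctx hD0 hcore.hG0 hG1b hC
  obtain ⟨g, qos, ht⟩ := exists_ter k c hcore.hk
  obtain ⟨G, hG⟩ := lower ht hctx hGb
  have hdq : ∀ n, g n < q := fun n => (g_lt ht n).trans_le hq
  have hnot : ∀ N, ∃ n ≥ N, g n + 1 < q := by
    intro N
    refine ⟨qos N + k N, (qos_ge ht N).trans (Nat.le_add_right _ _), ?_⟩
    rw [g0 ht]
    omega
  have hex := fun n => exists_rep (μ := μ) (f := f) (γ := γ) (X := X) ht n
  choose F hF using hex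
  refine ⟨g, hdq, ?_⟩
  have hv := svk_lt (show 2 ≤ q by omega) hdq hnot
  have hiff : ∀ n n', svk q g n < svk q g n' ↔ F n < F n' := by
    intro n n'
    by_cases hn : n = n'
    · subst hn
      exact ⟨fun h => absurd h (lt_irrefl _), fun h => absurd h (lt_irrefl _)⟩
    · rcases cmp ht hctx hn (hF n) (hF n') with ⟨h1, h2⟩ | ⟨h1, h2⟩
      · exact ⟨fun _ => h2, fun _ => hv _ _ h1⟩
      · exact ⟨fun h => absurd h (lt_asymm (hv _ _ h1)), fun h => absurd h (lt_asymm h2)⟩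
  rw [← hsum]
  refine t_TYPE (svk q g) F _ G hiff (fun n => rep_lt hctx ?_ (hF n))
    (fun ξ η h1 h2 => (hiff _ _).1 (hv _ _ (hG ξ η h1 h2)))
  rw [hsum]
  exact hρ

end Pool.Agent.Y860.SB
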