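import Pool.Agent.Y860.SB.Defs
import Pool.Agent.H560R3.SO.BIN
import Pool.Agent.H560R3.SO.BIN0
import Pool.Agent.H560R3.SO.CAT
import Pool.Agent.H560R3.SO.BC
import Pool.Agent.H560R3.SO.TL
import Pool.Agent.H560R3.SO.NF
import Pool.Agent.H560R3.SO.LL
import Pool.Agent.H560R3.SO.LH
import Pool.Agent.H560R3.SO.HH
import Pool.Agent.H560R3.SO.BD
import Pool.Agent.H560R3.SO.BG

/-!
Ternary sequences with blocks `1^k 0 2^c`: the types `ω ^ (μ + 1) + ρ`.
-/

set_option autoImplicit false

namespace Pool.Agent.Y860.SB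

open Ordinal Pool.Agent.H560R3.SO

/-- the ternary block `1^k 0 2^c` -/
def tb (k c : ℕ) : List ℕ := List.replicate k 1 ++ (0 :: List.replicate c 2)

/-- `g` is the concatenation of the blocks `tb (k i) (c i)` starting at `qos i` -/
structure Ter (k c : ℕ → ℕ) (g : ℕ → ℕ) (qos : ℕ → ℕ) : Prop where
  hk : ∀ i, 1 ≤ k i
  h0 : qos 0 = 0
  hs : ∀ i, qos (i + 1) = qos i + (k i + 1 + c i)
  ho : ∀ i, Occ g (qos i) (tb (k i) (c i))

theorem exists_ter (k c : ℕ → ℕ) (hk : ∀ i, 1 ≤ k i) : ∃ g qos, Ter k c g qos := by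
  obtain ⟨g, pos, h0, h1, h2⟩ := t_CAT ℕ (fun i => tb (k i) (c i)) (by intro j; simp [tb])
  refine ⟨g, pos, hk, h0, ?_, h2⟩
  intro i
  rw [h1 i]
  simp [tb]
  ring

theorem lts_asymm {X : Type} [LinearOrder X] {g : ℕ → X} {n n' : ℕ} (h : LTs g n n') :
    ¬ LTs g n' n := by
  rintro ⟨m', h1', h2'⟩
  obtain ⟨m, h1, h2⟩ := h
  rcases lt_trichotomy m m' with h | h | h
  · have := h1' m h
    rw [this] at h2
    exact lt_irrefl _ h2
  · subst h
    exact lt_asymm h2 h2'
  · have := h1 m' h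
    rw [this] at h2'
    exact lt_irrefl _ h2'

theorem lts_cons {X : Type} [LT X] {g : ℕ → X} {n n' : ℕ} (h0 : g n = g n')
    (h : LTs g (n + 1) (n' + 1)) : LTs g n n' := by
  obtain ⟨m, h1, h2⟩ := h
  refine ⟨m + 1, ?_, ?_⟩
  · intro l hl
    rcases Nat.eq_zero_or_pos l with h | h
    · rw [h]; exact h0
    · have := h1 (l - 1) (by omega)
      rw [show n + 1 + (l - 1) = n + l by omega, show n' + 1 + (l - 1) = n' + l by omega] at this
      exact this
  · rw [show n + (m + 1) = n + 1 + m by ring, show n' + (m + 1) = n' + 1 + m by ring]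
    exact h2

section ter

variable {k c : ℕ → ℕ} {g : ℕ → ℕ} {qos : ℕ → ℕ} (ht : Ter k c g qos)

include ht

theorem g1 {i o : ℕ} (h : o < k i) : g (qos i + o) = 1 := by
  have h1 := ht.ho i o (by simp [tb]; omega)
  rw [h1]
  simp only [tb]
  rw [List.getElem_append_left (by simpa using h)]
  simp

theorem g0 (i : ℕ) : g (qos i + k i) = 0 := by
  have h1 := ht.ho i (k i) (by simp [tb])
  rw [h1]
  simp only [tb]
  rw [List.getElem_append_right (by simp)]
  simp

theorem g2 {i o : ℕ} (h : o < c i) : g (qos i + (k i + 1 + o)) = 2 := by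
  have h1 := ht.ho i (k i + 1 + o) (by simp [tb]; omega)
  rw [h1]
  simp only [tb]
  rw [List.getElem_append_right (by simp; omega)]
  have e : k i + 1 + o - k i = o + 1 := by omega
  simp [e]

theorem gs (i : ℕ) : g (qos i) = 1 := by
  have := g1 ht (i := i) (o := 0) (ht.hk i)
  simpa using this

theorem cases3 (n : ℕ) : (∃ i o, o < k i ∧ n = qos i + o) ∨ (∃ i, n = qos i + k i) ∨
    (∃ i o, o < c i ∧ n = qos i + (k i + 1 + o)) := by
  have h0 := ht.h0
  have key : ∃ i, qos i ≤ n ∧ n < qos (i + 1) := by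
    induction n with
    | zero => exact ⟨0, by omega, by have := ht.hs 0; omega⟩
    | succ n ih =>
      obtain ⟨j, h1, h2⟩ := ih
      by_cases h : n + 1 < qos (j + 1)
      · exact ⟨j, by omega, h⟩
      · exact ⟨j + 1, by omega, by have := ht.hs (j + 1); omega⟩
  obtain ⟨i, h1, h2⟩ := key
  rw [ht.hs i] at h2
  rcases lt_trichotomy (n - qos i) (k i) with h | h | h
  · exact Or.inl ⟨i, n - qos i, h, by omega⟩
  · exact Or.inr (Or.inl ⟨i, by omega⟩)
  · exact Or.inr (Or.inr ⟨i, n - qos i - (k i + 1), by omega, by omega⟩)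

theorem g_lt (n : ℕ) : g n < 3 := by
  rcases cases3 ht n with ⟨i, o, ho, rfl⟩ | ⟨i, rfl⟩ | ⟨i, o, ho, rfl⟩
  · rw [g1 ht ho]; norm_num
  · rw [g0 ht]; norm_num
  · rw [g2 ht ho]; norm_num

/-- no letter `0` after a letter `2` -/
theorem g2_next {n : ℕ} (h : g n = 2) : g (n + 1) = 1 ∨ g (n + 1) = 2 := by
  rcases cases3 ht n with ⟨i, o, ho, rfl⟩ | ⟨i, rfl⟩ | ⟨i, o, ho, rfl⟩
  · rw [g1 ht ho] at h; omega
  · rw [g0 ht] at h; omega
  · by_cases h1 : o + 1 < c i
    · right
      rw [show qos i + (k i + 1 + o) + 1 = qos i + (k i + 1 + (o + 1)) by ring]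
      exact g2 ht h1
    · left
      have : qos i + (k i + 1 + o) + 1 = qos (i + 1) := by rw [ht.hs i]; omega
      rw [this]
      exact gs ht _

theorem qos_ge (N : ℕ) : N ≤ qos N := by
  induction N with
  | zero => exact Nat.zero_le _
  | succ N ih =>
    have := ht.hs N
    omega

end ter

/-- the position in the binary sequence -/
def psi (g : ℕ → ℕ) : ℕ → ℕ
  | 0 => 0
  | n + 1 => psi g n + (if g n = 1 then 2 else 1)

theorem psi_succ (g : ℕ → ℕ) (n : ℕ) : psi g (n + 1) = psi g n + (if g n = 1 then 2 else 1) := rfl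

theorem psi_mono (g : ℕ → ℕ) : StrictMono (psi g) := by
  refine strictMono_nat_of_lt_succ fun n => ?_
  rw [psi_succ]
  split_ifs <;> omega

section code

variable {k c : ℕ → ℕ} {g : ℕ → ℕ} {qos : ℕ → ℕ} {b : ℕ → Bool} {pos : ℕ → ℕ}
  (ht : Ter k c g qos) (hb : Bin 2 k c b pos)

include ht hb

theorem psi_a {i : ℕ} (h : psi g (qos i) = pos i) : ∀ o ≤ k i, psi g (qos i + o) = pos i + 2 * o := by
  intro o
  induction o with
  | zero => intro _; simpa using h
  | succ o ih =>
    intro ho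
    rw [show qos i + (o + 1) = qos i + o + 1 by ring, psi_succ, ih (by omega),
      g1 ht (i := i) (o := o) (by omega)]
    simp
    ring

theorem psi_b {i : ℕ} (h : psi g (qos i) = pos i) :
    ∀ o ≤ c i, psi g (qos i + (k i + 1 + o)) = pos i + (2 * k i + 1 + o) := by
  intro o
  induction o with
  | zero =>
    intro _
    rw [show qos i + (k i + 1 + 0) = qos i + k i + 1 by ring, psi_succ, psi_a ht hb h _ le_rfl,
      g0 ht]
    simp
    ring
  | succ o ih =>
    intro ho
    rw [show qos i + (k i + 1 + (o + 1)) = qos i + (k i + 1 + o) + 1 by ring, psi_succ,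
      ih (by omega), g2 ht (i := i) (o := o) (by omega)]
    simp
    ring

theorem psi_q (i : ℕ) : psi g (qos i) = pos i := by
  induction i with
  | zero => rw [ht.h0, hb.h0]; rfl
  | succ i ih =>
    rw [ht.hs i, hb.hs i]
    exact psi_b ht hb ih (c i) le_rfl

theorem psi1 {i o : ℕ} (h : o ≤ k i) : psi g (qos i + o) = pos i + 2 * o :=
  psi_a ht hb (psi_q ht hb i) o h

theorem psi2 {i o : ℕ} (h : o ≤ c i) :
    psi g (qos i + (k i + 1 + o)) = pos i + (2 * k i + 1 + o) :=
  psi_b ht hb (psi_q ht hb i) o h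

/-- the letters -/
theorem bit1 {n : ℕ} (h : g n = 1) : b (psi g n) = true ∧ b (psi g n + 1) = false := by
  rcases cases3 ht n with ⟨i, o, ho, rfl⟩ | ⟨i, rfl⟩ | ⟨i, o, ho, rfl⟩
  · rw [psi1 ht hb ho.le, show pos i + 2 * o + 1 = pos i + (2 * o + 1) by ring,
      BG.dig1 hb i (2 * o) (by omega), BG.dig1 hb i (2 * o + 1) (by omega)]
    constructor
    · simp
    · simp
  · rw [g0 ht] at h; omega
  · rw [g2 ht ho] at h; omega

theorem bit2 {n : ℕ} (h : g n = 2) : b (psi g n) = true := by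
  rcases cases3 ht n with ⟨i, o, ho, rfl⟩ | ⟨i, rfl⟩ | ⟨i, o, ho, rfl⟩
  · rw [g1 ht ho] at h; omega
  · rw [g0 ht] at h; omega
  · rw [psi2 ht hb ho.le]
    exact BG.dig3 hb i o ho

theorem bit0 {n : ℕ} (h : g n = 0) : b (psi g n) = false := by
  rcases cases3 ht n with ⟨i, o, ho, rfl⟩ | ⟨i, rfl⟩ | ⟨i, o, ho, rfl⟩
  · rw [g1 ht ho] at h; omega
  · rw [psi1 ht hb le_rfl]
    exact BG.dig2 hb i
  · rw [g2 ht ho] at h; omega

theorem agree {n n' : ℕ} (m : ℕ) (h : ∀ l < m, g (n + l) = g (n' + l)) :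
    ∃ L, m ≤ L ∧ psi g (n + m) = psi g n + L ∧ psi g (n' + m) = psi g n' + L ∧
      ∀ o < L, b (psi g n + o) = b (psi g n' + o) := by
  induction m with
  | zero => exact ⟨0, le_rfl, rfl, rfl, fun o ho => absurd ho (Nat.not_lt_zero _)⟩
  | succ m ih =>
    obtain ⟨L, h1, h2, h3, h4⟩ := ih fun l hl => h l (by omega)
    have e := h m (by omega)
    have hg := g_lt ht (n + m)
    by_cases h5 : g (n + m) = 1
    · have h6 := bit1 ht hb h5
      have h7 := bit1 ht hb (e ▸ h5)
      refine ⟨L + 2, by omega, ?_, ?_, ?_⟩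
      · rw [show n + (m + 1) = n + m + 1 by ring, psi_succ, h2, if_pos h5]; ring
      · rw [show n' + (m + 1) = n' + m + 1 by ring, psi_succ, h3, if_pos (e ▸ h5)]; ring
      · intro o ho
        rcases Nat.lt_or_ge o L with h8 | h8
        · exact h4 o h8
        · rw [h2, h3] at *
          rcases Nat.eq_or_lt_of_le h8 with h9 | h9
          · rw [← h9, h6.1, h7.1]
          · have h10 : o = L + 1 := by omega
            rw [h10, ← Nat.add_assoc, ← Nat.add_assoc, h6.2, h7.2]
    · refine ⟨L + 1, by omega, ?_, ?_, ?_⟩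
      · rw [show n + (m + 1) = n + m + 1 by ring, psi_succ, h2, if_neg h5]; ring
      · rw [show n' + (m + 1) = n' + m + 1 by ring, psi_succ, h3, if_neg (e ▸ h5)]; ring
      · intro o ho
        rcases Nat.lt_or_ge o L with h8 | h8
        · exact h4 o h8
        · have h10 : o = L := by omega
          rw [h10, ← h2, ← h3]
          rcases (show g (n + m) = 0 ∨ g (n + m) = 2 by omega) with h11 | h11
          · rw [bit0 ht hb h11, bit0 ht hb (e ▸ h11)]
          · rw [bit2 ht hb h11, bit2 ht hb (e ▸ h11)]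

theorem fwd {n n' : ℕ} (h : LTs g n n') : LTs b (psi g n) (psi g n') := by
  obtain ⟨m, h1, h2⟩ := h
  obtain ⟨L, h3, h4, h5, h6⟩ := agree ht hb m h1
  have hg := g_lt ht (n' + m)
  have e1 : g (n' + m) = 1 ∨ g (n' + m) = 2 := by omega
  have h7 : b (psi g n' + L) = true := by
    rw [← h5]
    rcases e1 with e1 | e1
    · exact (bit1 ht hb e1).1
    · exact bit2 ht hb e1
  rcases (show g (n + m) = 0 ∨ g (n + m) = 1 by omega) with h8 | h8
  · refine ⟨L, h6, ?_⟩
    rw [h7, ← h4, bit0 ht hb h8]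
    decide
  · have e2 : g (n' + m) = 2 := by omega
    refine ⟨L + 1, ?_, ?_⟩
    · intro o ho
      rcases Nat.lt_or_ge o L with h9 | h9
      · exact h6 o h9
      · have h10 : o = L := by omega
        rw [h10, h7, ← h4, (bit1 ht hb h8).1]
    · rw [← Nat.add_assoc, ← Nat.add_assoc, ← h4, ← h5, (bit1 ht hb h8).2]
      have h11 : psi g (n' + m) + 1 = psi g (n' + m + 1) := by
        rw [psi_succ, if_neg (by omega)]
      rw [h11]
      rcases g2_next ht e2 with h12 | h12
      · rw [(bit1 ht hb h12).1]; decide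
      · rw [bit2 ht hb h12]; decide

theorem conv {n n' : ℕ} (h : LTs b (psi g n) (psi g n')) : LTs g n n' := by
  classical
  by_cases hall : ∀ m, g (n + m) = g (n' + m)
  · exfalso
    obtain ⟨m, h1, h2⟩ := h
    obtain ⟨L, h3, -, -, h6⟩ := agree ht hb (n := n) (n' := n') (m + 1) fun l _ => hall l
    rw [h6 m (by omega)] at h2
    exact lt_irrefl _ h2
  · push Not at hall
    have hmin := Nat.find_spec hall
    have hlt : ∀ l < Nat.find hall, g (n + l) = g (n' + l) := fun l hl =>
      not_not.1 (Nat.find_min hall hl)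
    rcases lt_or_gt_of_ne hmin with h1 | h1
    · exact ⟨_, hlt, h1⟩
    · exfalso
      exact lts_asymm h (fwd ht hb ⟨_, fun l hl => (hlt l hl).symm, h1⟩)

/-- every position with the bit `1` comes from a position of the ternary sequence -/
theorem psi_surj {n : ℕ} (h : b n = true) : ∃ m, psi g m = n := by
  obtain ⟨i, h1, h2⟩ := NF.find_block hb n
  obtain ⟨o, rfl⟩ := Nat.exists_eq_add_of_le h1
  rw [hb.hs i] at h2
  rcases lt_trichotomy o (2 * k i) with h3 | h3 | h3
  · rw [BG.dig1 hb i o h3] at h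
    have h4 : o % 2 = 0 := by simpa using h
    refine ⟨qos i + o / 2, ?_⟩
    rw [psi1 ht hb (by omega)]
    omega
  · rw [h3, BG.dig2 hb i] at h
    exact absurd h (by decide)
  · refine ⟨qos i + (k i + 1 + (o - (2 * k i + 1))), ?_⟩
    rw [psi2 ht hb (by omega)]
    omega

/-- the normal forms of the image positions -/
theorem low_of {i o : ℕ} (h : o < k i) : Low 2 k c b pos (psi g (qos i + o)) 0 (k i - o) i := by
  have hs := hb.hs i
  rw [psi1 ht hb h.le]
  refine ⟨by omega, by omega, by omega, fun h => by omega, ?_, by omega⟩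
  have hocc := hb.ho i
  unfold blk at hocc
  have e : k i = o + (k i - o) := by omega
  rw [e, TL.up_add, List.append_assoc] at hocc
  have h1 := TL.occ_right hocc
  rw [TL.up_length 2 (by norm_num)] at h1
  rw [List.replicate_zero, List.nil_append]
  rw [e, Nat.add_sub_cancel_left]
  exact h1

theorem high_of {i o : ℕ} (h : o < c i) :
    High 2 c b pos (psi g (qos i + (k i + 1 + o))) 0 (c i - o) i := by
  have hs := hb.hs i
  rw [psi2 ht hb h.le]
  refine ⟨by omega, by omega, by omega, ?_, by omega⟩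
  intro l hl
  rw [List.replicate_zero, List.nil_append] at hl
  have hl' : l < c i - o := by simpa using hl
  simp only [List.replicate_zero, List.nil_append, List.getElem_replicate]
  rw [show pos i + (2 * k i + 1 + o) + l = pos i + (2 * k i + 1 + (o + l)) by ring]
  exact BG.dig3 hb i (o + l) (by omega)

end code

end Pool.Agent.Y860.SB
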